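import Pool.Agent.U516.P2.Fin2
import Pool.Agent.U516.R3.PkgST
import Pool.Agent.U516.R3.PkgCM
import Pool.Agent.U516.R3.PkgFF
import Pool.Agent.U516.P2.PkgDETA
import Pool.Agent.U516.P2.PkgDETB
import Pool.Agent.U516.P2.Explore
import Pool.Agent.U516.P2.PkgZI
import Pool.Agent.U516.P2.PkgCNT
import Pool.Agent.U516.P2.PkgTRC
import Pool.Agent.U516.P2.PkgHSG
import Pool.Agent.U516.P2.PkgTGP
import Pool.Agent.U516.P2.PkgRAT
import Pool.Agent.U516.P2.PkgVAR
import Pool.Agent.U516.P2.PkgSEC

/-!
MP_8a89f5_al, Q2.  For a random PAIR `x, y` of elements of `Alt(n)` the diameter of the Cayley graph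
is almost surely at most `n ^ (21/11 + δ)`, for every `δ > 0`.  The best bound known before is
`O(n ^ 2 (log n) ^ C)`.

Proof.  Let `κ < 1 / 11`, `r = n ^ κ`.

* Tuples.  Let `B = (x + y) / 2` act on the functions on `r`-tuples of distinct points. For
  `L ~ 4 r log n` the square of the Hilbert-Schmidt norm of `B ^ L` on the functions of sum zero is
  `4 ^ (-L) ∑ (number of r-tuples a with g(x,y) a = h(x,y) a) - 1`, the sum over all pairs of positive
  words `g, h` of length `L`.  After cancellation `g h⁻¹` (`g ≠ h`) is a cyclically reduced word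
  `p q⁻¹` with positive `p, q` of the same length `m`, and the expected number of `r`-tuples fixed by
  it is at most `exp (100 (m ^ 6 r ^ 5 / n) ^ (1/2))`.  This rests on a bound for the number of
  coincidences in the union of `r` closed walks reading `p q⁻¹`: ordering the places of the word by
  (exponent sum, side) gives a stacking in the sense of Louder and Wilton, and counting the tops and
  the bottoms of the stacks shows that the walks which are not isolated simple cycles have on the
  average at least `3/2` coincidences each.  So the norm is at most `1/2` almost surely, and the walk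
  on `r`-tuples has a spectral gap at least `1 / (16 L ^ 2) ≥ n ^ (-1/4)`, which is enough: words of
  length `n` mix on `r`-tuples.
* Start.  For a conjugation invariant set `E` of positive density almost surely some `x y ^ i`,
  `i ≤ log n`, lies in `E` (second moment; the correlations are character ratios of powers of `y`).
  With `E` a set of elements having a power `g ^ m`, `m ≤ n`, of support between `n/32` and `n/8` one
  gets a word of length `n log n` of such a support.
* Reduction.  Commutators with random conjugates square the density of the support; a last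
  commutator with a conjugate prescribed on about `r / 8` points gives a support between `r / 512`
  and `r`, with length `n ^ (1 + o(1))`; so all even involutions of support `≤ c r` cost
  `n ^ (1 + o(1))` and every even permutation is a product of `O(n / r)` of them.
-/

namespace Pool.Agent.Results.MP_8a89f5_al.DiameterPairs
open Filter Topology

noncomputable section

/-- the diameter of the Cayley graph of `Alt(n)` with respect to `{x, y}` is at most `D`: every
element is a product of at most `D` factors each of which is `x`, `x⁻¹`, `y` or `y⁻¹` -/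
def DiamAtMost {n : ℕ} (D : ℝ) (x y : alternatingGroup (Fin n)) : Prop :=
  ∀ g : alternatingGroup (Fin n), ∃ w : List (alternatingGroup (Fin n)),
    (w.length : ℝ) ≤ D ∧ (∀ z ∈ w, z = x ∨ z = x⁻¹ ∨ z = y ∨ z = y⁻¹) ∧ w.prod = g

theorem result (δ : ℝ) (hδ : 0 < δ) :
    Tendsto (fun n : ℕ =>
      (Nat.card {p : alternatingGroup (Fin n) × alternatingGroup (Fin n) //
        DiamAtMost ((n : ℝ) ^ (21 / 11 + δ)) p.1 p.2} : ℝ) /
        (Fintype.card (alternatingGroup (Fin n)) : ℝ) ^ 2) atTop (𝓝 1) := by
  have hCNT := P2516.t_CNT P2516.t_DETA P2516.t_DETB (P2516.t_ZI P2516X.t_EXPLx)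
  have hTRC := P2516.t_TRC hCNT
  have hTGP := P2516.t_TGP hTRC P2516.t_HSG
  have hSEC := P2516.t_SEC P2516.t_RAT P2516.t_VAR R3516.t_FF
  have key : Tendsto (fun n : ℕ => (Nat.card {x : Fin 2 → alternatingGroup (Fin n) //
      DiamAtMost ((n : ℝ) ^ (21 / 11 + δ)) (x 0) (x 1)} : ℝ) /
        (Fintype.card (alternatingGroup (Fin n)) : ℝ) ^ 2) atTop (𝓝 1) := by
    refine RD516.tendsto_of_bad (k := 2) (fun n x => DiamAtMost ((n : ℝ) ^ (21 / 11 + δ)) (x 0)
      (x 1)) fun e he => ?_
    filter_upwards [P2516.main2 R3516.t_ST R3516.t_CM hTGP hSEC δ hδ e he] with n hn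
    refine le_trans ?_ hn
    refine Nat.cast_le.mpr (RC14.card_mono _ _ fun x hx hcon => hx ?_)
    intro g
    obtain ⟨D, hD, w, h1, h2, h3⟩ := hcon (g : Equiv.Perm (Fin n)) g.2
    refine ⟨w, ?_, ?_, Subtype.ext h3⟩
    · have h4 : (w.length : ℝ) ≤ D := by exact_mod_cast h1
      have h5 : (2 : ℝ) - 1 / 11 + δ = 21 / 11 + δ := by norm_num
      rw [← h5]
      exact h4.trans hD
    · intro z hz
      obtain ⟨i, hi⟩ := h2 z hz
      fin_cases i
      · rcases hi with hi | hi
        · exact Or.inl hi
        · exact Or.inr (Or.inl hi)
      · rcases hi with hi | hi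
        · exact Or.inr (Or.inr (Or.inl hi))
        · exact Or.inr (Or.inr (Or.inr hi))
  refine key.congr fun n => ?_
  congr 2
  refine Nat.card_congr ?_
  exact (finTwoArrowEquiv (alternatingGroup (Fin n))).subtypeEquiv fun x => Iff.rfl

end

end Pool.Agent.Results.MP_8a89f5_al.DiameterPairs
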