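import Pool.Agent.U516.SG.Fin
import Pool.Agent.U516.SG.PkgCHB
import Pool.Agent.U516.SG.PkgCMP
import Pool.Agent.U516.R3.PkgST
import Pool.Agent.U516.R3.PkgCM
import Pool.Agent.U516.R3.PkgFF
import Pool.Agent.U516.P2.PkgDETA
import Pool.Agent.U516.P2.PkgDETB
import Pool.Agent.U516.P2.Explore
import Pool.Agent.U516.P2.PkgZI
import Pool.Agent.U516.P2.PkgCNT
import Pool.Agent.U516.P2.PkgTRC
import Pool.Agent.U516.P2.PkgHSG
import Pool.Agent.U516.P2.PkgTGP
import Pool.Agent.U516.P2.PkgRAT
import Pool.Agent.U516.P2.PkgVAR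
import Pool.Agent.U516.P2.PkgSEC

/-!
MP_8a89f5_al, Q1.  For a random PAIR `x, y` of elements of `Alt(n)` the spectral gap of the simple
random walk on the whole group is almost surely at least `n ^ (- 32/11 - δ)`, for every `δ > 0`.  The
best bound known before is `n ^ (- 3 - o(1))`.

Proof.  As for the diameter (`DiameterPairs`): almost surely there is a word `v` of length
`n ^ (1 + o(1))` whose support `s` is between `r / 512` and `r`, `r = n ^ (1/11 - o(1))`, and all its
conjugates are words of length `n ^ (1 + o(1))`, since words of length `n` are transitive on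
`r`-tuples.  The Dirichlet form of the walk is at least `n ^ (- 2 - o(1))` times that of the walk
given by the conjugacy class of `v`, whose gap is at least `c s / n`:  for every nontrivial
irreducible `ρ` of `Alt(n)` one has `|χ(v)| / d ≤ exp (- b s / n)`.  Indeed `(χ(v) / d) ^ N` is the mean
of `χ / d` at the product of `N = (n / s) log n` random conjugates of `v`, this product has at most
two fixed points on the average, and `|χ(g)| / d ≤ n ^ (-b)` if `g` has at most `n ^ (1/2)` fixed
points.
-/

namespace Pool.Agent.Results.MP_8a89f5_al.SpectralGapPairs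
open Filter Topology

noncomputable section

/-- the simple random walk on `Alt(n)` with the generators `x, x⁻¹, y, y⁻¹` has spectral gap at least
`γ`: `⟨f, P f⟩ ≤ (1 - γ) ⟨f, f⟩` for all functions `f` of sum zero -/
def GapAtLeast {n : ℕ} (γ : ℝ) (x y : alternatingGroup (Fin n)) : Prop :=
  ∀ f : alternatingGroup (Fin n) → ℝ, ∑ g, f g = 0 →
    ∑ g, f g * ((f (g * x) + f (g * x⁻¹) + f (g * y) + f (g * y⁻¹)) / 4) ≤
      (1 - γ) * ∑ g, f g ^ 2

theorem result (δ : ℝ) (hδ : 0 < δ) :
    Tendsto (fun n : ℕ =>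
      (Nat.card {p : alternatingGroup (Fin n) × alternatingGroup (Fin n) //
        GapAtLeast ((n : ℝ) ^ (-(32 / 11 + δ))) p.1 p.2} : ℝ) /
        (Fintype.card (alternatingGroup (Fin n)) : ℝ) ^ 2) atTop (𝓝 1) := by
  have hCNT := P2516.t_CNT P2516.t_DETA P2516.t_DETB (P2516.t_ZI P2516X.t_EXPLx)
  have hTRC := P2516.t_TRC hCNT
  have hTGP := P2516.t_TGP hTRC P2516.t_HSG
  have hSEC := P2516.t_SEC P2516.t_RAT P2516.t_VAR R3516.t_FF
  have hCHB := SG516.t_CHB P2516.t_RAT
  have key : Tendsto (fun n : ℕ => (Nat.card {x : Fin 2 → alternatingGroup (Fin n) //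
      GapAtLeast ((n : ℝ) ^ (-(32 / 11 + δ))) (x 0) (x 1)} : ℝ) /
        (Fintype.card (alternatingGroup (Fin n)) : ℝ) ^ 2) atTop (𝓝 1) := by
    refine RD516.tendsto_of_bad (k := 2) (fun n x => GapAtLeast ((n : ℝ) ^ (-(32 / 11 + δ))) (x 0)
      (x 1)) fun e he => ?_
    filter_upwards [SG516.mainG2 R3516.t_ST R3516.t_CM hTGP hSEC hCHB SG516.t_CMP δ hδ e he]
      with n hn
    refine le_trans ?_ hn
    refine Nat.cast_le.mpr (RC14.card_mono _ _ fun x hx hcon => hx ?_)
    intro f hf
    refine le_trans (le_of_eq ?_) (hcon f hf)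
    refine Finset.sum_congr rfl fun g _ => ?_
    rw [Fin.sum_univ_two]
    push_cast
    ring
  refine key.congr fun n => ?_
  congr 2
  refine Nat.card_congr ?_
  exact (finTwoArrowEquiv (alternatingGroup (Fin n))).subtypeEquiv fun x => Iff.rfl

end

end Pool.Agent.Results.MP_8a89f5_al.SpectralGapPairs
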